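import Pool.Agent.DDA.FinalSharp
import Pool.Agent.DDA.CubeUnique

open Filter Topology

/-- The first differing coefficient of the expansions of the critical values of bond percolation on
`ℤ^d` (in powers of `1/(2d)`) and on the hypercube `{0,1}^n` (in powers of `1/n`) has index `4`,
and `b₄ - a₄ = 5/2`; moreover `(2d)^4 (p_c({0,1}^{2d}; 1) - p_c(ℤ^d)) → 5/2`. -/
theorem Pool.Agent.Results.MP_dda18a_pr.FirstDifferingCoefficient.result :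
    ∃ pQ : ℕ → unitInterval,
      (∀ n, 1 ≤ n → ∀ p : unitInterval,
        DDA.meanCluster (DDA.cube n) (fun _ => false) p = ((2 : ℝ) ^ n) ^ ((1 : ℝ) / 3) ↔
          p = pQ n) ∧
      Tendsto (fun d : ℕ => ((pQ (2 * d) : ℝ) - DDA.pcZ d) * (2 * (d : ℝ)) ^ 4) atTop
        (𝓝 (5 / 2)) ∧
      ∀ a b : ℕ → ℝ,
        (∀ M : ℕ, 1 ≤ M → ∃ C : ℝ, ∀ d : ℕ, 1 ≤ d →
          |DDA.pcZ d - ∑ i ∈ Finset.Icc 1 M, a i / (2 * (d : ℝ)) ^ i| ≤ C / (d : ℝ) ^ (M + 1)) →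
        (∀ M : ℕ, 1 ≤ M → ∃ C : ℝ, ∀ n : ℕ, 1 ≤ n →
          |(pQ n : ℝ) - ∑ i ∈ Finset.Icc 1 M, b i / (n : ℝ) ^ i| ≤ C / (n : ℝ) ^ (M + 1)) →
        (∀ i, 1 ≤ i → i < 4 → a i = b i) ∧ b 4 = a 4 + 5 / 2 := by
  obtain ⟨pQ, hpQ⟩ := DDA.exists_pQ
  have h : ∀ n, 1 ≤ n → DDA.meanCluster (DDA.cube n) (fun _ => false) (pQ n)
      = ((2 : ℝ) ^ n) ^ ((1 : ℝ) / 3) := fun n hn => (hpQ n hn _).2 rfl
  exact ⟨pQ, hpQ, DDA.sharp_limit pQ h, fun a b ha hb => DDA.sharp_final a b pQ h ha hb⟩
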